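import Pool.Agent.Helper98.Arr.Acc

/-!
# ACC for complementary thresholds on general arrangement varieties

For every dimension `d` and all DCC sets `E`, `Γ₁`, `Γ₂`, the set of the thresholds of the
torus-invariant pairs of dimension `d` on general arrangement varieties of every complexity
(complexity `0`: toric varieties, complexity `1`: all rational varieties with a torus action of
complexity one), with `ε` in `E`, boundary coefficients in `Γ₁` and the coefficients of the
effective divisor `M` in `Γ₂`, satisfies the ascending chain condition.
-/

open Pool.Agent.Helper98.Arr

namespace Pool.Agent.Results.MP_205183_ag.ArrangementACC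

theorem result (d : ℕ) (E Γ₁ Γ₂ : Set ℝ) (hE : DCC E) (h1 : DCC Γ₁) (h2 : DCC Γ₂) :
    ACC (thresholds d E Γ₁ Γ₂) :=
  acc_thresholds d hE h1 h2

end Pool.Agent.Results.MP_205183_ag.ArrangementACC
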