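import Pool.Agent.Helper98.Arr.Dec

/-!
# Decomposed complements on general arrangement varieties

For every dimension `d` and all DCC sets `E`, `Γ` there is a finite set `Γ₀` such that for every
`ε` in `E` and every `(ε, ℝ)`-complementary torus-invariant pair of dimension `d` with
coefficients in `Γ` on a general arrangement variety of any complexity, the coefficients can be
raised to elements of `Γ₀` so that the pair is again `(ε, ℝ)`-complementary.
-/

open Pool.Agent.Helper98.Arr

namespace Pool.Agent.Results.MP_205183_ag.ArrangementComplements

theorem result (d : ℕ) (E Γ : Set ℝ) (hE : DCC E) (hΓ : DCC Γ) : Decomposed d E Γ :=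
  exists_decomposed d hE hΓ

end Pool.Agent.Results.MP_205183_ag.ArrangementComplements
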