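import Pool.Agent.Helper98.Germ.Acc

/-!
# ACC for a-lc thresholds of non-degenerate germs

For every dimension `n` and all DCC sets `E`, `Γ₁`, `Γ₂`, the set of the `ε`-lc thresholds of
non-degenerate germs of dimension `n` (affine toric germs, or hypersurfaces in affine toric germs
which are non-degenerate with respect to their Newton polyhedra), with `ε` in `E`, boundary
coefficients in `Γ₁` and the coefficients of `M` in `Γ₂`, where the boundary and `M` consist of
toric divisors and of any number of non-degenerate divisors, satisfies the ascending chain
condition.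
-/

open Pool.Agent.Helper98.Germ

namespace Pool.Agent.Results.MP_205183_ag.GermACC

theorem result (n : ℕ) (E Γ₁ Γ₂ : Set ℝ) (hE : DCC E) (h1 : DCC Γ₁) (h2 : DCC Γ₂) :
    ACC (thresholds n E Γ₁ Γ₂) :=
  acc_thresholds n hE h1 h2

end Pool.Agent.Results.MP_205183_ag.GermACC
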