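import Pool.Agent.Helper98.Sph.Acc

/-!
# ACC for complementary thresholds on spherical varieties

For every `d`, `A` and all DCC sets `E`, `Γ₁`, `Γ₂`, the set of the `(ε, ℝ)`-complementary
thresholds of spherical varieties of rank at most `d`, projective over an affine base, with `ε` in
`E`, boundary coefficients in `Γ₁` and the coefficients of `M` in `Γ₂`, where the boundary and `M`
consist of invariant divisors and of any number of general members of linear systems which are
invariant under the group, satisfies the ascending chain condition.
-/

open Pool.Agent.Helper98.Sph

namespace Pool.Agent.Results.MP_205183_ag.SphericalACC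

theorem result (d A : ℕ) (E Γ₁ Γ₂ : Set ℝ) (hE : DCC E) (h1 : DCC Γ₁) (h2 : DCC Γ₂) :
    ACC (thresholds d A E Γ₁ Γ₂) :=
  acc_thresholds d A hE h1 h2

end Pool.Agent.Results.MP_205183_ag.SphericalACC
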